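import Pool.Agent.N563.LSP.Stm
set_option autoImplicit false

/-! # LSP/E1: duality, from `S_HLP` for `q = p / (p - 1)` to `S_E1` for `p > 2`

Seat helper574. -/

open MeasureTheory Set
open scoped ENNReal

namespace Pool.Agent.N574.LSP

open Pool.Agent.TH280.LS Pool.Agent.N563.LSP

lemma U_eq (H : ℝ → ℂ) (y : ℝ) : ∫ η : ℝ, e (y * η) * H η = ft H (-y) := by
  unfold ft
  congr 1
  ext η
  congr 2
  ring

lemma U_cont {H : ℝ → ℂ} (hH : Integrable H) :
    Continuous (fun y : ℝ => ∫ η : ℝ, e (y * η) * H η) := by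
  simp only [U_eq]
  exact (continuous_ft hH).comp continuous_neg

lemma U_bd (H : ℝ → ℂ) (y : ℝ) : ‖∫ η : ℝ, e (y * η) * H η‖ ≤ ∫ η : ℝ, ‖H η‖ := by
  refine (norm_integral_le_integral_norm _).trans_eq ?_
  simp only [norm_mul, norm_e, one_mul]

/-- Fubini -/
lemma fub {H g0 : ℝ → ℂ} (hH : Integrable H) (hg : Integrable g0) :
    ∫ y : ℝ, (∫ η : ℝ, e (y * η) * H η) * g0 y = ∫ η : ℝ, H η * ft (fun x => g0 (-x)) η := by
  have h1 : ∀ y : ℝ, (∫ η : ℝ, e (y * η) * H η) * g0 y = ∫ η : ℝ, e (y * η) * H η * g0 y :=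
    fun y => (integral_mul_const _ _).symm
  simp only [h1]
  rw [integral_integral_swap]
  · congr 1
    ext η
    have h2 : ft (fun x => g0 (-x)) η = ∫ y : ℝ, e (y * η) * g0 y := by
      unfold ft
      rw [← integral_neg_eq_self (fun y : ℝ => e (y * η) * g0 y)]
      congr 1
      ext x
      congr 2
      ring
    rw [h2, ← integral_const_mul]
    congr 1
    ext y
    ring
  · have h3 : Integrable (fun z : ℝ × ℝ => g0 z.1 * H z.2) (volume.prod volume) := hg.mul_prod hH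
    have h4 : Integrable (fun z : ℝ × ℝ => e (z.1 * z.2) * (g0 z.1 * H z.2))
        (volume.prod volume) := by
      refine h3.bdd_mul (c := 1) ?_ (Filter.Eventually.of_forall fun z => (norm_e _).le)
      exact (continuous_e.comp (continuous_fst.mul continuous_snd)).aestronglyMeasurable
    refine h4.congr (Filter.Eventually.of_forall fun z => ?_)
    simp only [Function.uncurry]
    ring

/-- the cancellation -/
lemma canc {p q : ℝ} (hpq : p.HolderConjugate q) {X W : ℝ≥0∞} {C : ℝ} (hC : 0 < C)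
    (hX : X ≠ ⊤) (h : X ≤ W ^ (1 / p) * (ENNReal.ofReal C * X) ^ (1 / q)) :
    X ≤ ENNReal.ofReal (C ^ (p - 1)) * W := by
  rcases eq_or_ne X 0 with h0 | h0
  · rw [h0]
    exact bot_le
  have hp0 : 0 < p := hpq.pos
  have hq0 : 0 < q := hpq.symm.pos
  have h1 : X = X ^ (1 / p) * X ^ (1 / q) := by
    rw [← ENNReal.rpow_add _ _ h0 hX]
    have : 1 / p + 1 / q = 1 := by
      have := hpq.inv_add_inv_eq_one
      rwa [one_div, one_div]
    rw [this, ENNReal.rpow_one]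
  rw [ENNReal.mul_rpow_of_nonneg _ _ (by positivity), ← mul_assoc] at h
  have h2 : X ^ (1 / p) * X ^ (1 / q) ≤
      W ^ (1 / p) * ENNReal.ofReal C ^ (1 / q) * X ^ (1 / q) := by
    rw [← h1]
    exact h
  have h3 : X ^ (1 / q) ≠ 0 := by
    rw [Ne, ENNReal.rpow_eq_zero_iff]
    push Not
    exact ⟨fun h => absurd h h0, fun h => absurd h hX⟩
  have h4 : X ^ (1 / q) ≠ ⊤ := ENNReal.rpow_ne_top_of_nonneg (by positivity) hX
  have h5 := (ENNReal.mul_le_mul_iff_left h3 h4).1 h2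
  have h6 := ENNReal.rpow_le_rpow h5 hp0.le
  rw [ENNReal.mul_rpow_of_nonneg _ _ hp0.le, ← ENNReal.rpow_mul, ← ENNReal.rpow_mul,
    ← ENNReal.rpow_mul, one_div, inv_mul_cancel₀ hp0.ne', ENNReal.rpow_one, ENNReal.rpow_one] at h6
  have h7 : 1 / q * p = p - 1 := by
    have := hpq.sub_one_mul_conj
    field_simp
    linarith
  rw [h7, ENNReal.ofReal_rpow_of_pos hC, mul_comm] at h6
  exact h6

lemma key {p q C : ℝ} (hp : 2 < p) (hpq : p.HolderConjugate q) (hC : 0 < C)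
    (h : ∀ (g : ℝ → ℂ) (B : ℝ), Integrable g → (∀ x, ‖g x‖ ≤ B) →
      ∫⁻ ξ : ℝ, ENNReal.ofReal (|ξ| ^ (q - 2)) * ‖ft g ξ‖ₑ ^ q ≤
        ENNReal.ofReal C * ∫⁻ x : ℝ, ‖g x‖ₑ ^ q)
    {H : ℝ → ℂ} (hH : Integrable H) (R : ℝ) :
    ∫⁻ y in Icc (-R) R, ‖∫ η : ℝ, e (y * η) * H η‖ₑ ^ p ≤
      ENNReal.ofReal (C ^ (p - 1)) *
        ∫⁻ η : ℝ, ENNReal.ofReal (|η| ^ (p - 2)) * ‖H η‖ₑ ^ p := by
  have hp0 : 0 < p := hpq.pos
  have hq0 : 0 < q := hpq.symm.pos
  obtain ⟨U, hU⟩ : ∃ U : ℝ → ℂ, U = fun y => ∫ η : ℝ, e (y * η) * H η := ⟨_, rfl⟩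
  have hUe : ∀ y, ∫ η : ℝ, e (y * η) * H η = U y := fun y => by rw [hU]
  have hUc : Continuous U := by
    rw [hU]
    exact U_cont hH
  obtain ⟨M, hM⟩ : ∃ M : ℝ, M = ∫ η : ℝ, ‖H η‖ := ⟨_, rfl⟩
  have hUb : ∀ y, ‖U y‖ ≤ M := fun y => by
    rw [hU, hM]
    exact U_bd H y
  have hM0 : 0 ≤ M := (norm_nonneg _).trans (hUb 0)
  simp only [hUe]
  obtain ⟨V, hV⟩ : ∃ V : ℝ → ℂ, V = fun y => ((‖U y‖ ^ (p - 2) : ℝ) : ℂ) *
    (starRingEnd ℂ) (U y) := ⟨_, rfl⟩
  have hVc : Continuous V := by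
    rw [hV]
    exact (Complex.continuous_ofReal.comp
      (hUc.norm.rpow_const fun _ => Or.inr (by linarith))).mul (Complex.continuous_conj.comp hUc)
  have hVn : ∀ y, ‖V y‖ = ‖U y‖ ^ (p - 1) := fun y => by
    rw [hV]
    simp only [norm_mul, Complex.norm_real, RCLike.norm_conj]
    rw [Real.norm_of_nonneg (Real.rpow_nonneg (norm_nonneg _) _)]
    rcases eq_or_ne (‖U y‖) 0 with h0 | h0
    · rw [h0, mul_zero, Real.zero_rpow (by linarith)]
    · nth_rw 2 [← Real.rpow_one ‖U y‖]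
      rw [← Real.rpow_add (lt_of_le_of_ne (norm_nonneg _) h0.symm)]
      congr 1
      ring
  have hUV : ∀ y, U y * V y = ((‖U y‖ ^ p : ℝ) : ℂ) := fun y => by
    rw [hV]
    simp only
    rw [mul_left_comm, Complex.mul_conj, ← Complex.ofReal_mul]
    congr 1
    rw [Complex.normSq_eq_norm_sq]
    rcases eq_or_ne (‖U y‖) 0 with h0 | h0
    · rw [h0, Real.zero_rpow (by linarith), Real.zero_rpow (by linarith), zero_mul]
    · rw [← Real.rpow_natCast, ← Real.rpow_add (lt_of_le_of_ne (norm_nonneg _) h0.symm)]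
      congr 1
      push_cast
      ring
  obtain ⟨g0, hg0⟩ : ∃ g0 : ℝ → ℂ, g0 = (Icc (-R) R).indicator V := ⟨_, rfl⟩
  have hg0i : Integrable g0 := by
    rw [hg0, integrable_indicator_iff measurableSet_Icc]
    exact hVc.continuousOn.integrableOn_compact isCompact_Icc
  have hg0b : ∀ y, ‖g0 y‖ ≤ M ^ (p - 1) := fun y => by
    rw [hg0]
    by_cases hy : y ∈ Icc (-R) R
    · rw [indicator_of_mem hy, hVn]
      exact Real.rpow_le_rpow (norm_nonneg _) (hUb y) (by linarith)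
    · rw [indicator_of_notMem hy, norm_zero]
      positivity
  obtain ⟨g, hg⟩ : ∃ g : ℝ → ℂ, g = fun x => g0 (-x) := ⟨_, rfl⟩
  have hgi : Integrable g := by
    rw [hg]
    exact hg0i.comp_neg
  have hgb : ∀ y, ‖g y‖ ≤ M ^ (p - 1) := fun y => by
    rw [hg]
    exact hg0b _
  obtain ⟨X, hX⟩ : ∃ X : ℝ≥0∞, X = ∫⁻ y in Icc (-R) R, ‖U y‖ₑ ^ p := ⟨_, rfl⟩
  rw [← hX]
  have hgX : ∫⁻ x : ℝ, ‖g x‖ₑ ^ q = X := by
    rw [hX, hg, lintegral_neg_eq_self (fun x : ℝ => ‖g0 x‖ₑ ^ q),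
      ← lintegral_indicator measurableSet_Icc]
    congr 1
    ext y
    rw [hg0]
    by_cases hy : y ∈ Icc (-R) R
    · rw [indicator_of_mem hy, indicator_of_mem hy, ← ofReal_norm,
        ← ofReal_norm, hVn, ENNReal.ofReal_rpow_of_nonneg (by positivity) hq0.le,
        ENNReal.ofReal_rpow_of_nonneg (by positivity) hp0.le, ← Real.rpow_mul (norm_nonneg _),
        hpq.sub_one_mul_conj]
    · rw [indicator_of_notMem hy, indicator_of_notMem hy, enorm_zero,
        ENNReal.zero_rpow_of_pos hq0]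
  have hXi : Integrable ((Icc (-R) R).indicator (fun y => ‖U y‖ ^ p)) := by
    rw [integrable_indicator_iff measurableSet_Icc]
    exact (hUc.norm.rpow_const fun _ => Or.inr hp0.le).continuousOn.integrableOn_compact
      isCompact_Icc
  have hX0 : ∀ y, 0 ≤ (Icc (-R) R).indicator (fun y => ‖U y‖ ^ p) y := fun y =>
    indicator_nonneg (fun _ _ => by positivity) y
  have hXr : X = ENNReal.ofReal (∫ y : ℝ, (Icc (-R) R).indicator (fun y => ‖U y‖ ^ p) y) := by
    rw [ofReal_integral_eq_lintegral_ofReal hXi (Filter.Eventually.of_forall hX0), hX,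
      ← lintegral_indicator measurableSet_Icc]
    congr 1
    ext y
    by_cases hy : y ∈ Icc (-R) R
    · rw [indicator_of_mem hy, indicator_of_mem hy, ← ofReal_norm,
        ENNReal.ofReal_rpow_of_nonneg (by positivity) hp0.le]
    · rw [indicator_of_notMem hy, indicator_of_notMem hy, ENNReal.ofReal_zero]
  have hXt : X ≠ ⊤ := by
    rw [hXr]
    exact ENNReal.ofReal_ne_top
  refine canc hpq hC hXt ?_
  have hA : X ≤ ∫⁻ η : ℝ, ‖H η‖ₑ * ‖ft g η‖ₑ := by
    have h1 := fub hH hg0i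
    simp only [hUe] at h1
    rw [← hg] at h1
    have h2 : ∀ y, U y * g0 y =
        (((Icc (-R) R).indicator (fun y => ‖U y‖ ^ p) y : ℝ) : ℂ) := fun y => by
      rw [hg0]
      by_cases hy : y ∈ Icc (-R) R
      · rw [indicator_of_mem hy, indicator_of_mem hy, hUV]
      · rw [indicator_of_notMem hy, indicator_of_notMem hy, mul_zero, Complex.ofReal_zero]
    simp only [h2] at h1
    rw [integral_complex_ofReal] at h1
    have h3 : X = ‖((∫ y : ℝ, (Icc (-R) R).indicator (fun y => ‖U y‖ ^ p) y : ℝ) : ℂ)‖ₑ := by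
      rw [hXr, ← ofReal_norm, Complex.norm_real,
        Real.norm_of_nonneg (integral_nonneg hX0)]
    rw [h3]
    refine le_trans (le_of_eq (congrArg _ h1)) ?_
    refine (enorm_integral_le_lintegral_enorm _).trans_eq ?_
    simp only [enorm_mul]
  have hB : ∫⁻ η : ℝ, ‖H η‖ₑ * ‖ft g η‖ₑ ≤
      (∫⁻ η : ℝ, ENNReal.ofReal (|η| ^ (p - 2)) * ‖H η‖ₑ ^ p) ^ (1 / p) *
      (∫⁻ η : ℝ, ENNReal.ofReal (|η| ^ (q - 2)) * ‖ft g η‖ₑ ^ q) ^ (1 / q) := by
    have h1 : AEMeasurable (fun η : ℝ => ENNReal.ofReal (|η| ^ (p - 2)) ^ (1 / p) * ‖H η‖ₑ) := by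
      refine AEMeasurable.mul ?_ hH.aestronglyMeasurable.enorm
      exact (Measurable.pow_const (by fun_prop) _).aemeasurable
    have h2 : AEMeasurable (fun η : ℝ => ENNReal.ofReal (|η| ^ (q - 2)) ^ (1 / q) *
        ‖ft g η‖ₑ) := by
      refine AEMeasurable.mul ?_ (continuous_ft hgi).aestronglyMeasurable.enorm
      exact (Measurable.pow_const (by fun_prop) _).aemeasurable
    have h3 := ENNReal.lintegral_mul_le_Lp_mul_Lq volume hpq h1 h2
    have h4 : ∫⁻ η : ℝ, ‖H η‖ₑ * ‖ft g η‖ₑ = ∫⁻ η : ℝ,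
        ((fun η : ℝ => ENNReal.ofReal (|η| ^ (p - 2)) ^ (1 / p) * ‖H η‖ₑ) *
        (fun η : ℝ => ENNReal.ofReal (|η| ^ (q - 2)) ^ (1 / q) * ‖ft g η‖ₑ)) η := by
      apply lintegral_congr_ae
      have hne : ∀ᵐ η : ℝ, η ≠ 0 := by
        rw [ae_iff]
        simp
      filter_upwards [hne] with η hη
      have ha : 0 < |η| := abs_pos.2 hη
      simp only [Pi.mul_apply]
      have e1 : ENNReal.ofReal (|η| ^ (p - 2)) ^ (1 / p) *
          ENNReal.ofReal (|η| ^ (q - 2)) ^ (1 / q) = 1 := by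
        rw [ENNReal.ofReal_rpow_of_nonneg (by positivity) (by positivity),
          ENNReal.ofReal_rpow_of_nonneg (by positivity) (by positivity),
          ← ENNReal.ofReal_mul (by positivity), ← Real.rpow_mul ha.le, ← Real.rpow_mul ha.le,
          ← Real.rpow_add ha]
        have e2 : (p - 2) * (1 / p) + (q - 2) * (1 / q) = 0 := by
          have e3 := hpq.inv_add_inv_eq_one
          have e4 : (p - 2) * (1 / p) = 1 - 2 * p⁻¹ := by field_simp
          have e5 : (q - 2) * (1 / q) = 1 - 2 * q⁻¹ := by field_simp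
          rw [e4, e5]
          linarith
        rw [e2, Real.rpow_zero, ENNReal.ofReal_one]
      calc ‖H η‖ₑ * ‖ft g η‖ₑ = 1 * (‖H η‖ₑ * ‖ft g η‖ₑ) := (one_mul _).symm
        _ = _ := by
          rw [← e1]
          ring
    rw [h4]
    refine h3.trans_eq ?_
    have h5 : ∀ (r : ℝ) (hr : 0 < r) (w z : ℝ≥0∞), (w ^ (1 / r) * z) ^ r = w * z ^ r := by
      intro r hr w z
      rw [ENNReal.mul_rpow_of_nonneg _ _ hr.le, ← ENNReal.rpow_mul, one_div,
        inv_mul_cancel₀ hr.ne', ENNReal.rpow_one]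
    simp only [h5 p hp0, h5 q hq0]
  refine hA.trans (hB.trans ?_)
  have hD := h g _ hgi hgb
  rw [hgX] at hD
  gcongr

theorem e1_ (h1 : S_HLP) : S_E1 := by
  intro p hp
  obtain ⟨q, hq⟩ : ∃ q : ℝ, q = p / (p - 1) := ⟨_, rfl⟩
  have hp1 : 0 < p - 1 := by linarith
  have hpq : p.HolderConjugate q := by
    rw [hq]
    exact Real.HolderConjugate.conjExponent (by linarith)
  have hq1 : 1 < q := by
    rw [hq, one_lt_div hp1]
    linarith
  have hq2 : q < 2 := by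
    rw [hq, div_lt_iff₀ hp1]
    linarith
  obtain ⟨C, hC, h⟩ := h1 q hq1 hq2
  refine ⟨C ^ (p - 1), by positivity, fun H hH => ?_⟩
  have hun : (⋃ n : ℕ, Icc (-(n : ℝ)) n) = univ := by
    rw [eq_univ_iff_forall]
    intro x
    rw [mem_iUnion]
    obtain ⟨n, hn⟩ := exists_nat_ge |x|
    exact ⟨n, abs_le.1 hn⟩
  have hdir : Directed (· ⊆ ·) (fun n : ℕ => Icc (-(n : ℝ)) n) := by
    apply Monotone.directed_le
    intro m n hmn
    have : (m : ℝ) ≤ n := by exact_mod_cast hmn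
    exact Icc_subset_Icc (by linarith) this
  rw [← setLIntegral_univ, ← hun, setLIntegral_iUnion_of_directed _ hdir]
  exact iSup_le fun n => key hp hpq hC h hH n

end Pool.Agent.N574.LSP
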